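import Pool.Agent.Y157.GT.Stm
import Pool.Agent.Y655.PS.Kum0

/-!
# Project GT (helper157): the Kummer argument on the projective line
-/

set_option autoImplicit false

open Polynomial

namespace Pool.Agent.Y430.GT

open Pool.Agent.Y157.PS Pool.Agent.Y157.GT

/-- a nontrivial homomorphism to a finite `ℓ`-group gives a character of order `ℓ` -/
theorem exists_char (ℓ : ℕ) [Fact ℓ.Prime] (κ₀ : Type) [Field κ₀] [IsAlgClosed κ₀] [CharZero κ₀]
    {G P : Type} [Group G] [Group P] [Finite P] (hP : IsPGroup ℓ P) (θ : G →* P)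
    (hθ : ∃ g, θ g ≠ 1) :
    ∃ χ : G →* κ₀ˣ, (∀ g, θ g = 1 → χ g = 1) ∧ (∀ g, χ g ^ ℓ = 1) ∧ ∃ g, χ g ≠ 1 := by
  classical
  obtain ⟨g0, hg0⟩ := hθ
  have hQ : IsPGroup ℓ θ.range := hP.to_subgroup _
  have hnt : Nontrivial θ.range := by
    refine ⟨⟨⟨θ g0, g0, rfl⟩, 1, ?_⟩⟩
    intro h
    exact hg0 (congrArg Subtype.val h)
  have hnil : Group.IsNilpotent θ.range := hQ.isNilpotent
  have hsol : Group.IsSolvable θ.range := inferInstance
  have hlt := Group.IsSolvable.commutator_lt_top_of_nontrivial θ.range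
  obtain ⟨q, -, hq⟩ := SetLike.exists_of_lt hlt
  have hq1 : Abelianization.of q ≠ 1 := by
    intro h
    apply hq
    exact (QuotientGroup.eq_one_iff q).1 h
  have hexp : Monoid.exponent (Abelianization θ.range) ≠ 0 := Monoid.exponent_ne_zero_of_finite
  have : NeZero ((Monoid.exponent (Abelianization θ.range) : ℕ) : κ₀) :=
    ⟨by exact_mod_cast hexp⟩
  obtain ⟨φ, hφ⟩ := CommGroup.exists_apply_ne_one_of_hasEnoughRootsOfUnity
    (Abelianization θ.range) κ₀ hq1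
  obtain ⟨q', hq'⟩ := q
  obtain ⟨g1, rfl⟩ := hq'
  set χ₁ : G →* κ₀ˣ := φ.comp (Abelianization.of.comp θ.rangeRestrict) with hχ₁
  have h1 : ∀ g, θ g = 1 → χ₁ g = 1 := by
    intro g hg
    have : θ.rangeRestrict g = 1 := Subtype.ext hg
    simp [hχ₁, this]
  have h2 : χ₁ g1 ≠ 1 := hφ
  obtain ⟨n, hn⟩ := IsPGroup.iff_card.1 hQ
  have h3 : ∃ n, ∀ g, χ₁ g ^ (ℓ ^ n) = 1 := by
    refine ⟨n, fun g => ?_⟩
    have : θ.rangeRestrict g ^ (ℓ ^ n) = 1 := by rw [← hn]; exact pow_card_eq_one'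
    rw [hχ₁, MonoidHom.comp_apply, MonoidHom.comp_apply, ← map_pow, ← map_pow, this, map_one,
      map_one]
  obtain ⟨e, he⟩ : ∃ e, e = Nat.find h3 := ⟨_, rfl⟩
  have hes : ∀ g, χ₁ g ^ (ℓ ^ e) = 1 := by rw [he]; exact Nat.find_spec h3
  have he0 : e ≠ 0 := by
    intro h0
    have := hes g1
    rw [h0, pow_zero, pow_one] at this
    exact h2 this
  obtain ⟨e', rfl⟩ := Nat.exists_eq_succ_of_ne_zero he0
  have hmin : ¬ ∀ g, χ₁ g ^ (ℓ ^ e') = 1 := Nat.find_min h3 (by rw [← he]; exact Nat.lt_succ_self _)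
  push Not at hmin
  obtain ⟨g2, hg2⟩ := hmin
  refine ⟨χ₁ ^ (ℓ ^ e'), fun g hg => ?_, fun g => ?_, g2, ?_⟩
  · rw [MonoidHom.pow_apply, h1 g hg, one_pow]
  · rw [MonoidHom.pow_apply, ← pow_mul, ← pow_succ]
    exact hes g
  · rw [MonoidHom.pow_apply]; exact hg2

/-- nonzero polynomials over an algebraically closed field, modulo `ℓ`-th powers -/
theorem poly_mod (ℓ : ℕ) (hℓ : 0 < ℓ) (κ₀ : Type) [Field κ₀] [IsAlgClosed κ₀] (p : κ₀[X])
    (hp : p ≠ 0) : ∃ (A₀ : Finset κ₀) (m : κ₀ → ℕ) (r : κ₀[X]), r ≠ 0 ∧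
      (∀ a ∈ A₀, 0 < m a ∧ m a < ℓ) ∧ p = r ^ ℓ * ∏ a ∈ A₀, (X - C a) ^ m a := by
  classical
  have h1 := (IsAlgClosed.splits p).eq_prod_roots
  rw [Polynomial.prod_multiset_root_eq_finset_root] at h1
  obtain ⟨c, hc⟩ := IsAlgClosed.exists_pow_nat_eq p.leadingCoeff hℓ
  have hc0 : c ≠ 0 := by
    rintro rfl
    rw [zero_pow hℓ.ne'] at hc
    exact hp (leadingCoeff_eq_zero.1 hc.symm)
  refine ⟨p.roots.toFinset.filter (fun a => rootMultiplicity a p % ℓ ≠ 0),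
    fun a => rootMultiplicity a p % ℓ,
    C c * ∏ a ∈ p.roots.toFinset, (X - C a) ^ (rootMultiplicity a p / ℓ), ?_, ?_, ?_⟩
  · refine mul_ne_zero (C_ne_zero.2 hc0) (Finset.prod_ne_zero_iff.2 fun a _ => ?_)
    exact pow_ne_zero _ (X_sub_C_ne_zero a)
  · intro a ha
    rw [Finset.mem_filter] at ha
    exact ⟨Nat.pos_of_ne_zero ha.2, Nat.mod_lt _ hℓ⟩
  · have h2 : ∏ a ∈ p.roots.toFinset.filter (fun a => rootMultiplicity a p % ℓ ≠ 0),
        (X - C a) ^ (rootMultiplicity a p % ℓ) =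
        ∏ a ∈ p.roots.toFinset, (X - C a) ^ (rootMultiplicity a p % ℓ) := by
      apply Finset.prod_filter_of_ne
      intro a _ h h0
      apply h
      rw [h0, pow_zero]
    rw [h2, mul_pow, ← C_pow, hc, ← Finset.prod_pow, mul_assoc, ← Finset.prod_mul_distrib]
    conv_lhs => rw [h1]
    congr 1
    refine Finset.prod_congr rfl fun a _ => ?_
    rw [← pow_mul, ← pow_add]
    congr 1
    rw [mul_comm]
    exact (Nat.div_add_mod _ _).symm

/-- elements of an extension which are roots of a polynomial over an algebraically closed field -/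
theorem mem_const {κ₀ κ : Type} [Field κ₀] [IsAlgClosed κ₀] [Field κ] [Algebra κ₀ κ] {w : κ} {n : ℕ}
    (hn : 0 < n) (hw : w ^ n = 1) : ∃ c : κ₀, algebraMap κ₀ κ c = w := by
  have hint : IsIntegral κ₀ w := by
    refine IsIntegral.of_pow hn ?_
    rw [hw]; exact isIntegral_one
  have h1 := minpoly.mem_range_of_degree_eq_one κ₀ w
    (IsAlgClosed.degree_eq_one_of_irreducible κ₀ (minpoly.irreducible hint))
  exact h1

theorem kup : S_KUP := by
  intro ℓ _ κ₀ κ _ _ _ _ _ _ ρ hρ halg P _ _ hP θ hE hθ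
  obtain ⟨E, hEf, hE1⟩ := hE
  have hℓ : 0 < ℓ := (Fact.out : ℓ.Prime).pos
  obtain ⟨χ, hχ1, hχ2, g0, hg0⟩ := exists_char ℓ κ₀ hP θ hθ
  have hcz : CharZero κ := charZero_of_injective_algebraMap (algebraMap κ₀ κ).injective
  have hcl : IsAlgClosure (IntermediateField.adjoin κ₀ {ρ}) κ := ⟨inferInstance, halg⟩
  have hGal : IsGalois (IntermediateField.adjoin κ₀ {ρ}) κ := IsAlgClosure.isGalois _ _
  -- the constants are fixed
  have hfixc : ∀ (g : κ ≃ₐ[IntermediateField.adjoin κ₀ {ρ}] κ) (c : κ₀),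
      g (algebraMap κ₀ κ c) = algebraMap κ₀ κ c := by
    intro g c
    rw [IsScalarTower.algebraMap_apply κ₀ (IntermediateField.adjoin κ₀ {ρ}) κ]
    exact g.commutes _
  have hfixρ : ∀ (g : κ ≃ₐ[IntermediateField.adjoin κ₀ {ρ}] κ), g ρ = ρ := by
    intro g
    have := g.commutes ⟨ρ, IntermediateField.mem_adjoin_simple_self κ₀ ρ⟩
    exact this
  have hfixp : ∀ (g : κ ≃ₐ[IntermediateField.adjoin κ₀ {ρ}] κ) (r : κ₀[X]),
      g (aeval ρ r) = aeval ρ r := by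
    intro g r
    have h1 : aeval ρ r ∈ IntermediateField.adjoin κ₀ {ρ} := by
      rw [IntermediateField.mem_adjoin_simple_iff]
      exact ⟨r, 1, by simp⟩
    exact g.commutes ⟨aeval ρ r, h1⟩
  -- the resolvent
  obtain ⟨w0, hw0, hw1⟩ := Pool.Agent.Y655.PS.resolvent
    (⊤ : Subgroup (κ ≃ₐ[IntermediateField.adjoin κ₀ {ρ}] κ))
    (fun g => algebraMap κ₀ κ (χ g : κ₀))
    (fun g _ => by
      rw [Ne, map_eq_zero_iff _ (algebraMap κ₀ κ).injective]
      exact (χ g).ne_zero)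
    (fun g _ g' _ => by rw [map_mul, Units.val_mul, map_mul])
    (fun g _ g' _ => hfixc g _) E
    (fun g hg _ => by rw [hχ1 g (hE1 g hg)]; simp)
  have hw1' : ∀ g, g w0 = algebraMap κ₀ κ (χ g : κ₀) * w0 := fun g => hw1 g (Subgroup.mem_top g)
  -- its power is in the base field
  have hu : w0 ^ ℓ ∈ Set.range (algebraMap (IntermediateField.adjoin κ₀ {ρ}) κ) := by
    rw [InfiniteGalois.mem_range_algebraMap_iff_fixed]
    intro g
    rw [map_pow, hw1', mul_pow, ← map_pow, ← Units.val_pow_eq_pow_val, hχ2, Units.val_one, map_one,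
      one_mul]
  obtain ⟨⟨u, hu1⟩, hu2⟩ := hu
  rw [IntermediateField.mem_adjoin_simple_iff] at hu1
  obtain ⟨r, s, hrs⟩ := hu1
  have hu3 : w0 ^ ℓ = aeval ρ r / aeval ρ s := by rw [← hrs, ← hu2]; rfl
  have hs0 : aeval ρ s ≠ 0 := by
    intro h
    rw [h, div_zero] at hu3
    exact pow_ne_zero _ hw0 hu3
  have hr0 : aeval ρ r ≠ 0 := by
    intro h
    rw [h, zero_div] at hu3
    exact pow_ne_zero _ hw0 hu3
  have hsne : s ≠ 0 := by rintro rfl; simp at hs0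
  have hrne : r ≠ 0 := by rintro rfl; simp at hr0
  obtain ⟨A₀, m, q, hq0, hm, hq⟩ := poly_mod ℓ hℓ κ₀ (r * s ^ (ℓ - 1))
    (mul_ne_zero hrne (pow_ne_zero _ hsne))
  have hqρ : aeval ρ q ≠ 0 := by
    intro h
    exact hρ ⟨q, hq0, h⟩
  have hpow : (aeval ρ s) ^ ℓ = (aeval ρ s) ^ (ℓ - 1) * aeval ρ s := by
    rw [← pow_succ]; congr 1; omega
  have hw2 : (w0 * aeval ρ s / aeval ρ q) ^ ℓ = ∏ a ∈ A₀, (ρ - algebraMap κ₀ κ a) ^ m a := by
    have h1 := congrArg (aeval ρ) hq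
    simp only [map_mul, map_pow, map_prod, map_sub, aeval_X, aeval_C] at h1
    have h2 : (aeval ρ q) ^ ℓ ≠ 0 := pow_ne_zero _ hqρ
    rw [div_pow, mul_pow, hu3, div_eq_iff h2, hpow, mul_comm (∏ a ∈ A₀, _), ← h1]
    field_simp
  have hgw : ∀ g : κ ≃ₐ[IntermediateField.adjoin κ₀ {ρ}] κ,
      g (w0 * aeval ρ s / aeval ρ q) =
        algebraMap κ₀ κ (χ g : κ₀) * (w0 * aeval ρ s / aeval ρ q) := by
    intro g
    rw [map_div₀, map_mul, hfixp, hfixp, hw1']
    ring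
  refine ⟨w0 * aeval ρ s / aeval ρ q, A₀, m, ?_, hm, hw2, ?_⟩
  · by_contra hne
    rw [Finset.not_nonempty_iff_eq_empty] at hne
    rw [hne, Finset.prod_empty] at hw2
    obtain ⟨c, hc⟩ := mem_const (κ₀ := κ₀) hℓ hw2
    have h1 := hgw g0
    rw [← hc, hfixc, ← map_mul] at h1
    have h2 := (algebraMap κ₀ κ).injective h1
    have hc0 : c ≠ 0 := by
      rintro rfl
      rw [map_zero] at hc
      rw [← hc, zero_pow hℓ.ne'] at hw2
      exact zero_ne_one hw2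
    apply hg0
    apply Units.ext
    rw [Units.val_one]
    have h3 : c * 1 = c * (χ g0 : κ₀) := by rw [mul_one, mul_comm]; exact h2
    exact (mul_left_cancel₀ hc0 h3).symm
  · intro g hg
    rw [hgw, hχ1 g hg, Units.val_one, map_one, one_mul]

end Pool.Agent.Y430.GT
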